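import Mathlib
import Pool.Agent.R833.ML.Main1

/-!
MP_ff8adc_an, Q1: negative answer.  There are `α ∈ (3/5,1)` and a real `t` such that the
Mittag-Leffler series `∑ (it)^k / Γ(αk+1)` converges with sum `0`.
-/

set_option autoImplicit false

namespace Pool.Agent.Results.MP_ff8adc_an.ImaginaryZero

theorem result :
    ∃ α : ℝ, 3 / 5 < α ∧ α < 1 ∧ ∃ t : ℝ,
      HasSum (fun k : ℕ => (Complex.I * t) ^ k / ((Real.Gamma (α * k + 1) : ℝ) : ℂ)) 0 := by
  obtain ⟨a, h1, h2, t, ht⟩ := R833.ML.all_FIN1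
  refine ⟨a, h1, h2, t, ?_⟩
  have hs := R833.ML.SUM.t_SUM a 1 (Complex.I * t) (by linarith) one_pos
  have h := hs.hasSum
  have e : (∑' k : ℕ, (Complex.I * t) ^ k / ((Real.Gamma (a * k + 1) : ℝ) : ℂ)) = 0 := ht
  rwa [e] at h

end Pool.Agent.Results.MP_ff8adc_an.ImaginaryZero
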